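import Pool.Agent.Helper50.HT.Stmts

/-! # HT row EXA: the symmetric sets of integer points exist -/

set_option autoImplicit false

namespace Pool.Agent.Helper43.HT

open Pool.Agent.Helper50.HT

theorem dbl (box : Finset (Fin 3 → ℤ)) (h0 : ∀ v ∈ box, 1 ≤ v 0) (m : ℕ) (hm : m ≤ box.card) :
    ∃ A : Finset (Fin 3 → ℤ), A.card = 2 * m ∧ (∀ v ∈ A, v ∈ box ∨ -v ∈ box) ∧
      ∀ v ∈ A, -v ∈ A := by
  classical
  obtain ⟨A0, hA0, hc⟩ := Finset.exists_subset_card_eq hm
  refine ⟨A0 ∪ A0.image (fun v => -v), ?_, ?_, ?_⟩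
  · rw [Finset.card_union_of_disjoint, Finset.card_image_of_injective _ neg_injective, hc, two_mul]
    rw [Finset.disjoint_left]
    intro v hv hv'
    obtain ⟨w, hw, rfl⟩ := Finset.mem_image.1 hv'
    have h1 := h0 _ (hA0 hv)
    have h2 := h0 _ (hA0 hw)
    simp only [Pi.neg_apply] at h1
    omega
  · intro v hv
    rcases Finset.mem_union.1 hv with hv | hv
    · exact Or.inl (hA0 hv)
    · obtain ⟨w, hw, rfl⟩ := Finset.mem_image.1 hv
      right
      rw [neg_neg]
      exact hA0 hw
  · intro v hv
    rcases Finset.mem_union.1 hv with hv | hv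
    · exact Finset.mem_union_right _ (Finset.mem_image_of_mem _ hv)
    · obtain ⟨w, hw, rfl⟩ := Finset.mem_image.1 hv
      rw [neg_neg]
      exact Finset.mem_union_left _ hw

theorem exa : ST_EXA := by
  intro K m hm
  refine ⟨?_, ?_⟩
  · obtain ⟨A, hc, hb, hs⟩ := dbl (Fintype.piFinset (fun _ : Fin 3 => Finset.Icc (1 : ℤ) K))
      (fun v hv => (Finset.mem_Icc.1 (Fintype.mem_piFinset.1 hv 0)).1) m (by
        rw [Fintype.card_piFinset, Fin.prod_univ_three]
        simp only [Int.card_Icc, add_sub_cancel_right, Int.toNat_natCast]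
        calc m ≤ K ^ 3 := hm
          _ = K * K * K := by ring)
    refine ⟨A, hc, fun v hv => ?_, hs⟩
    rcases hb v hv with h | h
    · left
      intro i
      exact Finset.mem_Icc.1 (Fintype.mem_piFinset.1 h i)
    · right
      intro i
      have := Finset.mem_Icc.1 (Fintype.mem_piFinset.1 h i)
      simp only [Pi.neg_apply] at this
      omega
  · obtain ⟨A, hc, hb, hs⟩ := dbl (Fintype.piFinset
      (fun i : Fin 3 => if i = 2 then Finset.Icc (-(K : ℤ)) (-1) else Finset.Icc (1 : ℤ) K))
      (fun v hv => by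
        have := Fintype.mem_piFinset.1 hv 0
        rw [if_neg (by decide)] at this
        exact (Finset.mem_Icc.1 this).1) m (by
        rw [Fintype.card_piFinset, Fin.prod_univ_three, if_neg (by decide), if_neg (by decide),
          if_pos rfl]
        simp only [Int.card_Icc, add_sub_cancel_right, Int.toNat_natCast]
        have : ((-1 : ℤ) + 1 - -(K : ℤ)).toNat = K := by
          have : ((-1 : ℤ) + 1 - -(K : ℤ)) = (K : ℤ) := by ring
          rw [this, Int.toNat_natCast]
        rw [this]
        calc m ≤ K ^ 3 := hm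
          _ = K * K * K := by ring)
    refine ⟨A, hc, fun v hv => ?_, hs⟩
    rcases hb v hv with h | h
    · left
      have h0 := Fintype.mem_piFinset.1 h 0
      have h1 := Fintype.mem_piFinset.1 h 1
      have h2 := Fintype.mem_piFinset.1 h 2
      rw [if_neg (by decide), Finset.mem_Icc] at h0
      rw [if_neg (by decide), Finset.mem_Icc] at h1
      rw [if_pos rfl, Finset.mem_Icc] at h2
      exact ⟨h0.1, h0.2, h1.1, h1.2, h2.1, h2.2⟩
    · right
      have h0 := Fintype.mem_piFinset.1 h 0
      have h1 := Fintype.mem_piFinset.1 h 1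
      have h2 := Fintype.mem_piFinset.1 h 2
      rw [if_neg (by decide), Finset.mem_Icc] at h0
      rw [if_neg (by decide), Finset.mem_Icc] at h1
      rw [if_pos rfl, Finset.mem_Icc] at h2
      simp only [Pi.neg_apply] at h0 h1 h2
      refine ⟨?_, ?_, ?_, ?_, ?_, ?_⟩ <;> omega

end Pool.Agent.Helper43.HT
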